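import Pool.Agent.H972ST.Stmts

set_option autoImplicit false
open Pointwise

namespace Pool.Agent.H127R3.ST

open Pool.Agent.H972ST

theorem inR_smul (c : ℝ) (hc : 0 < c) (v : Fin 8 → ℝ) : InR 1 (c⁻¹ • v) ↔ InR c v := by
  have hc' : 0 < c⁻¹ := inv_pos.2 hc
  have key : ∀ A B : ℝ, c⁻¹ * A ≤ B ↔ A ≤ c * B := fun A B => inv_mul_le_iff₀ hc
  have e : ∀ a : ℝ, |c⁻¹ * a| = c⁻¹ * |a| := fun a => by rw [abs_mul, abs_of_pos hc']
  have h1 : r1 (c⁻¹ • v) = c⁻¹ * r1 v := by simp only [r1, Pi.smul_apply, smul_eq_mul]; ring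
  have h2 : r2 (c⁻¹ • v) = c⁻¹ * r2 v := by simp only [r2, Pi.smul_apply, smul_eq_mul]; ring
  have h3 : r3 (c⁻¹ • v) = c⁻¹ * r3 v := by simp only [r3, Pi.smul_apply, smul_eq_mul]; ring
  have h4 : r4 (c⁻¹ • v) = c⁻¹ * r4 v := by simp only [r4, Pi.smul_apply, smul_eq_mul]; ring
  have hx : ∀ i, (c⁻¹ • v) i = c⁻¹ * v i := fun i => rfl
  unfold InR
  rw [h1, h2, h3, h4, hx 0, hx 1, hx 2, hx 3]
  simp only [e]
  have k1 : ∀ a b d f : ℝ, c⁻¹ * a + c⁻¹ * b + c⁻¹ * d + c⁻¹ * f ≤ 1 ↔ a + b + d + f ≤ c := by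
    intro a b d f
    rw [show c⁻¹ * a + c⁻¹ * b + c⁻¹ * d + c⁻¹ * f = c⁻¹ * (a + b + d + f) by ring, key, mul_one]
  have k2 : ∀ a b d f g : ℝ, c⁻¹ * a + c⁻¹ * b + c⁻¹ * d + 2 * (c⁻¹ * f + c⁻¹ * g) ≤ 2 * 1 ↔
      a + b + d + 2 * (f + g) ≤ 2 * c := by
    intro a b d f g
    rw [show c⁻¹ * a + c⁻¹ * b + c⁻¹ * d + 2 * (c⁻¹ * f + c⁻¹ * g) =
      c⁻¹ * (a + b + d + 2 * (f + g)) by ring, key, mul_one, mul_comm c 2]
  simp only [k1, k2]

theorem inR_cast (m : ℕ) (x : Fin 8 → ℤ) : InR (m : ℝ) (fun k => (x k : ℝ)) ↔ InZ m x := by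
  constructor
  · intro h
    dsimp only [InR, r1, r2, r3, r4] at h
    unfold InZ y1 y2 y3 y4
    exact_mod_cast h
  · intro h
    unfold InZ y1 y2 y3 y4 at h
    dsimp only [InR, r1, r2, r3, r4]
    exact_mod_cast h

theorem inZ_zero (x : Fin 8 → ℤ) : InZ 0 x ↔ x = 0 := by
  constructor
  · intro h
    unfold InZ y1 y2 y3 y4 at h
    obtain ⟨h1, h2, h3, -, -, -, -⟩ := h
    have a0 : x 0 = 0 := by
      have := abs_nonneg (x 0); have := abs_nonneg (x 1); have := abs_nonneg (x 2)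
      have := abs_nonneg (x 3); exact abs_eq_zero.1 (by omega)
    have a1 : x 1 = 0 := by
      have := abs_nonneg (x 0); have := abs_nonneg (x 1); have := abs_nonneg (x 2)
      have := abs_nonneg (x 3); exact abs_eq_zero.1 (by omega)
    have a2 : x 2 = 0 := by
      have := abs_nonneg (x 0); have := abs_nonneg (x 1); have := abs_nonneg (x 2)
      have := abs_nonneg (x 3); exact abs_eq_zero.1 (by omega)
    have a3 : x 3 = 0 := by
      have := abs_nonneg (x 0); have := abs_nonneg (x 1); have := abs_nonneg (x 2)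
      have := abs_nonneg (x 3); exact abs_eq_zero.1 (by omega)
    rw [a0, a1, a2, a3] at h2
    rw [a0, a1, a2, a3] at h3
    simp only [abs_zero, add_zero] at h2 h3
    have n1 := abs_nonneg (x 4)
    have n2 := abs_nonneg (x 4 + 2 * x 7)
    have n3 := abs_nonneg (x 4 + 2 * x 5)
    have n4 := abs_nonneg (x 4 + 2 * x 6)
    have a4 : x 4 = 0 := abs_eq_zero.1 (by omega)
    have b7 : x 4 + 2 * x 7 = 0 := abs_eq_zero.1 (by omega)
    have b5 : x 4 + 2 * x 5 = 0 := abs_eq_zero.1 (by omega)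
    have b6 : x 4 + 2 * x 6 = 0 := abs_eq_zero.1 (by omega)
    funext i
    fin_cases i
    · exact a0
    · exact a1
    · exact a2
    · exact a3
    · exact a4
    · show x 5 = 0; omega
    · show x 6 = 0; omega
    · show x 7 = 0; omega
  · rintro rfl
    simp [InZ, y1, y2, y3, y4]

theorem tMem : TMem := by
  intro hP
  have h0P : (0 : Fin 8 → ℝ) ∈ P := by
    rw [hP]
    simp [InR, r1, r2, r3, r4]
  refine ⟨?_, ?_⟩
  · intro m x
    rcases Nat.eq_zero_or_pos m with rfl | hm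
    · rw [Nat.cast_zero, Set.zero_smul_set ⟨0, h0P⟩, Nat.cast_zero, inZ_zero]
      constructor
      · intro h
        funext i
        have := congrFun (Set.mem_zero.1 h) i
        simpa using this
      · rintro rfl
        rw [Set.mem_zero]
        funext i
        simp
    · have hm' : (0 : ℝ) < (m : ℝ) := Nat.cast_pos.2 hm
      rw [Set.mem_smul_set_iff_inv_smul_mem₀ hm'.ne', hP, Set.mem_ofPred_eq, inR_smul _ hm',
        inR_cast]
  · let U : Set (Fin 8 → ℝ) := {x |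
      |x 0| + |x 1| + |x 2| + |x 3| < 1 ∧
      |r1 x| + |r4 x| + |x 2| + |x 3| < 1 ∧
      |r2 x| + |r3 x| + |x 2| + |x 3| < 1 ∧
      |x 0| + |r1 x| + |r2 x| + 2 * (|x 2| + |x 3|) < 2 * 1 ∧
      |x 0| + |r3 x| + |r4 x| + 2 * (|x 2| + |x 3|) < 2 * 1 ∧
      |x 1| + |r1 x| + |r3 x| + 2 * (|x 2| + |x 3|) < 2 * 1 ∧
      |x 1| + |r2 x| + |r4 x| + 2 * (|x 2| + |x 3|) < 2 * 1}
    have hsub : U ⊆ P := by
      intro x hx
      rw [hP]
      obtain ⟨h1, h2, h3, h4, h5, h6, h7⟩ := hx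
      exact ⟨h1.le, h2.le, h3.le, h4.le, h5.le, h6.le, h7.le⟩
    have hopen : IsOpen U := by
      have c1 : Continuous r1 := by unfold r1; fun_prop
      have c2 : Continuous r2 := by unfold r2; fun_prop
      have c3 : Continuous r3 := by unfold r3; fun_prop
      have c4 : Continuous r4 := by unfold r4; fun_prop
      have o1 : IsOpen {x : Fin 8 → ℝ | |x 0| + |x 1| + |x 2| + |x 3| < 1} :=
        isOpen_lt (by fun_prop) continuous_const
      have o2 : IsOpen {x : Fin 8 → ℝ | |r1 x| + |r4 x| + |x 2| + |x 3| < 1} :=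
        isOpen_lt (by fun_prop) continuous_const
      have o3 : IsOpen {x : Fin 8 → ℝ | |r2 x| + |r3 x| + |x 2| + |x 3| < 1} :=
        isOpen_lt (by fun_prop) continuous_const
      have o4 : IsOpen {x : Fin 8 → ℝ |
          |x 0| + |r1 x| + |r2 x| + 2 * (|x 2| + |x 3|) < 2 * 1} :=
        isOpen_lt (by fun_prop) continuous_const
      have o5 : IsOpen {x : Fin 8 → ℝ |
          |x 0| + |r3 x| + |r4 x| + 2 * (|x 2| + |x 3|) < 2 * 1} :=
        isOpen_lt (by fun_prop) continuous_const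
      have o6 : IsOpen {x : Fin 8 → ℝ |
          |x 1| + |r1 x| + |r3 x| + 2 * (|x 2| + |x 3|) < 2 * 1} :=
        isOpen_lt (by fun_prop) continuous_const
      have o7 : IsOpen {x : Fin 8 → ℝ |
          |x 1| + |r2 x| + |r4 x| + 2 * (|x 2| + |x 3|) < 2 * 1} :=
        isOpen_lt (by fun_prop) continuous_const
      exact o1.inter (o2.inter (o3.inter (o4.inter (o5.inter (o6.inter o7)))))
    refine ⟨0, interior_maximal hsub hopen ?_⟩
    simp [U, r1, r2, r3, r4]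

end Pool.Agent.H127R3.ST
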